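import Mathlib

/-!
No Banach space with property (A) contains a ccs Delta-point; in every normed space each
ccs Delta-point is a super Delta-point.
-/

set_option linter.unusedSectionVars false

open Metric Set

namespace Pool.Agent.Results.MP_d10958_an.CcsDeltaIsSuperDelta

section Defs

variable (𝕜 : Type*) [RCLike 𝕜] {X : Type*} [NormedAddCommGroup X] [NormedSpace 𝕜 X]

/-- The slice `S(f, δ)` of the closed unit ball. -/
def slice (f : StrongDual 𝕜 X) (δ : ℝ) : Set X :=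
  {x | ‖x‖ ≤ 1 ∧ sSup ((fun y => RCLike.re (f y)) '' closedBall (0 : X) 1) - δ < RCLike.re (f x)}

/-- Convex combinations of slices of the closed unit ball. -/
def IsCcs (C : Set X) : Prop :=
  ∃ (n : ℕ) (f : Fin n → StrongDual 𝕜 X) (δ : Fin n → ℝ) (l : Fin n → ℝ),
    1 ≤ n ∧ (∀ i, 0 < δ i) ∧ (∀ i, 0 < l i ∧ l i ≤ 1) ∧ ∑ i, l i = 1 ∧
      C = {z | ∃ y : Fin n → X, (∀ i, y i ∈ slice 𝕜 (f i) (δ i)) ∧
        z = ∑ i, ((l i : ℝ) : 𝕜) • y i}

/-- ccs Delta-points. -/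
def IsCcsDelta (x : X) : Prop :=
  ‖x‖ = 1 ∧ ∀ C : Set X, IsCcs 𝕜 C → x ∈ C → sSup ((fun y => ‖x - y‖) '' C) = 2

/-- super Delta-points: every relatively weakly open subset of the ball containing `x` has
points almost at distance two from `x`. -/
def IsSuperDelta (x : X) : Prop :=
  ‖x‖ = 1 ∧ ∀ U : Set (WeakSpace 𝕜 X), IsOpen U → toWeakSpace 𝕜 X x ∈ U →
    sSup ((fun y => ‖x - y‖) '' {y : X | ‖y‖ ≤ 1 ∧ toWeakSpace 𝕜 X y ∈ U}) = 2

/-- Property (A). -/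
def PropertyA (X : Type*) [NormedAddCommGroup X] [NormedSpace 𝕜 X] : Prop :=
  ∃ 𝒜 : Set (X →L[𝕜] X),
    (∀ T ∈ 𝒜, FiniteDimensional 𝕜 (LinearMap.range (T : X →ₗ[𝕜] X))) ∧
    (∃ c : ℝ, c < 2 ∧ ∀ T ∈ 𝒜, ‖ContinuousLinearMap.id 𝕜 X - T‖ ≤ c) ∧
    ∀ ε : ℝ, 0 < ε → ∀ x : X, ∃ T ∈ 𝒜, ‖x - T x‖ < ε

end Defs

section

variable {𝕜 : Type*} [RCLike 𝕜] {X : Type*} [NormedAddCommGroup X] [NormedSpace 𝕜 X]

lemma re_apply_le (f : StrongDual 𝕜 X) (y : X) : RCLike.re (f y) ≤ ‖f‖ * ‖y‖ :=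
  le_trans (RCLike.re_le_norm _) (f.le_opNorm y)

lemma bddAbove_re (f : StrongDual 𝕜 X) :
    BddAbove ((fun y => RCLike.re (f y)) '' closedBall (0 : X) 1) := by
  refine ⟨‖f‖, ?_⟩
  rintro _ ⟨y, hy, rfl⟩
  rw [mem_closedBall_zero_iff] at hy
  calc RCLike.re (f y) ≤ ‖f‖ * ‖y‖ := re_apply_le f y
    _ ≤ ‖f‖ * 1 := by gcongr
    _ = ‖f‖ := mul_one _

/-- separation in the form we need -/
lemma separation {E : Type*} [NormedAddCommGroup E] [NormedSpace 𝕜 E] [NormedSpace ℝ E]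
    [IsScalarTower ℝ 𝕜 E] (K : Set E) (hK : Convex ℝ K)
    (hne : K.Nonempty) (p : E) (ε : ℝ) (hε : 0 < ε) (hdisj : ∀ k ∈ K, ε ≤ ‖k - p‖) :
    ∃ h : StrongDual 𝕜 E, ‖h‖ = 1 ∧ ∀ k ∈ K, RCLike.re (h k) ≤ RCLike.re (h p) - ε := by
  have hd : Disjoint (ball p ε) K := by
    rw [Set.disjoint_left]
    intro a ha hk
    rw [mem_ball, dist_eq_norm] at ha
    exact absurd (hdisj a hk) (not_le.mpr ha)
  obtain ⟨f, u, hf1, hf2⟩ := RCLike.geometric_hahn_banach_open (𝕜 := 𝕜) (convex_ball p ε)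
    isOpen_ball hK hd
  obtain ⟨k₀, hk₀⟩ := hne
  have hpu : RCLike.re (f p) < u := hf1 p (mem_ball_self hε)
  have hf0 : 0 < ‖f‖ := by
    rw [norm_pos_iff]
    rintro rfl
    have h1 := hf2 k₀ hk₀
    simp only [zero_apply, map_zero] at hpu h1
    linarith
  have key : ε * ‖f‖ ≤ u - RCLike.re (f p) := by
    by_contra hcon
    push Not at hcon
    have hr : (u - RCLike.re (f p)) / ε < ‖f‖ := by
      rw [div_lt_iff₀ hε]
      linarith
    obtain ⟨v, hv1, hv2⟩ := f.exists_lt_apply_of_lt_opNorm hr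
    obtain ⟨c, hc1, hc2⟩ := RCLike.exists_norm_eq_mul_self (f v)
    have hmem : p + ((ε : ℝ) : 𝕜) • (c • v) ∈ ball p ε := by
      rw [mem_ball, dist_eq_norm, add_sub_cancel_left, norm_smul, norm_smul, hc1, one_mul,
        RCLike.norm_ofReal, abs_of_pos hε]
      nlinarith
    have h2 := hf1 _ hmem
    rw [map_add, map_smul, map_smul, smul_eq_mul, smul_eq_mul, ← hc2, map_add] at h2
    have h3 : RCLike.re (((ε : ℝ) : 𝕜) * ((‖f v‖ : ℝ) : 𝕜)) = ε * ‖f v‖ := by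
      rw [← RCLike.ofReal_mul, RCLike.ofReal_re]
    rw [h3] at h2
    rw [div_lt_iff₀ hε] at hv2
    linarith
  refine ⟨((-(‖f‖)⁻¹ : ℝ) : 𝕜) • f, ?_, ?_⟩
  · rw [norm_smul, RCLike.norm_ofReal, abs_neg, abs_inv, abs_of_pos hf0,
      inv_mul_cancel₀ hf0.ne']
  · intro k hk
    have h1 := hf2 k hk
    simp only [smul_apply, smul_eq_mul, RCLike.re_ofReal_mul]
    have h2 : ‖f‖⁻¹ * (RCLike.re (f p) + ε * ‖f‖) ≤ ‖f‖⁻¹ * RCLike.re (f k) := by
      apply mul_le_mul_of_nonneg_left _ (inv_nonneg.mpr hf0.le)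
      linarith
    have h3 : ‖f‖⁻¹ * (ε * ‖f‖) = ε := by
      field_simp
    rw [mul_add, h3] at h2
    linarith

/-- The core: near a ccs Delta-point, any finite rank information can be matched by a point of
the ball almost at distance two. -/
theorem core {x : X} (hx : IsCcsDelta 𝕜 x) {E : Type*} [NormedAddCommGroup E] [NormedSpace 𝕜 E]
    [FiniteDimensional 𝕜 E] (T : X →L[𝕜] E) (ε : ℝ) (hε : 0 < ε) :
    ∃ y : X, ‖y‖ ≤ 1 ∧ ‖T y - T x‖ < ε ∧ 2 - ε ≤ ‖x - y‖ := by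
  classical
  obtain ⟨hx1, hx2⟩ := hx
  let _ : NormedSpace ℝ X := NormedSpace.restrictScalars ℝ 𝕜 X
  let _ : NormedSpace ℝ E := NormedSpace.restrictScalars ℝ 𝕜 E
  have _ : IsScalarTower ℝ 𝕜 E := RestrictScalars.isScalarTower ℝ 𝕜 E
  have _ : IsScalarTower ℝ 𝕜 X := RestrictScalars.isScalarTower ℝ 𝕜 X
  -- net of functionals
  set θ : ℝ := ε / (4 * (‖T‖ + 1)) with hθ
  have hT1 : 0 < ‖T‖ + 1 := by positivity
  have hθpos : 0 < θ := by positivity
  have hθT : θ * ‖T‖ ≤ ε / 4 := by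
    rw [hθ, div_mul_eq_mul_div, div_le_div_iff₀ (by positivity) (by norm_num)]
    nlinarith [norm_nonneg T]
  have hprop : ProperSpace (StrongDual 𝕜 E) := FiniteDimensional.proper 𝕜 (StrongDual 𝕜 E)
  obtain ⟨t, ht1, ht2, ht3⟩ :=
    (isCompact_closedBall (0 : StrongDual 𝕜 E) 1).finite_cover_balls hθpos
  have htne : t.Nonempty := by
    have h0 : (0 : StrongDual 𝕜 E) ∈ closedBall (0 : StrongDual 𝕜 E) 1 := by simp
    have := ht3 h0
    simp only [mem_iUnion] at this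
    obtain ⟨a, ha, -⟩ := this
    exact ⟨a, ha⟩
  set s : Finset (StrongDual 𝕜 E) := ht2.toFinset with hs
  have hsne : s.Nonempty := by
    obtain ⟨a, ha⟩ := htne
    exact ⟨a, ht2.mem_toFinset.mpr ha⟩
  set n := s.card with hn
  have hnpos : 0 < n := Finset.card_pos.mpr hsne
  have hnr : (0 : ℝ) < n := by exact_mod_cast hnpos
  let en : Fin n ≃ s := s.equivFin.symm
  let f : Fin n → StrongDual 𝕜 X := fun i => (en i : StrongDual 𝕜 E).comp T
  set Msup : Fin n → ℝ := fun i =>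
    sSup ((fun y => RCLike.re (f i y)) '' closedBall (0 : X) 1) with hMsup
  have hxball : x ∈ closedBall (0 : X) 1 := by
    rw [mem_closedBall_zero_iff, hx1]
  have hMx : ∀ i, RCLike.re (f i x) ≤ Msup i := fun i =>
    le_csSup (bddAbove_re (f i)) ⟨x, hxball, rfl⟩
  let δ : Fin n → ℝ := fun i => Msup i - RCLike.re (f i x) + ε / 4
  have hδ : ∀ i, 0 < δ i := by
    intro i
    have := hMx i
    simp only [δ]
    linarith
  let C : Set X := {z | ∃ y : Fin n → X, (∀ i, y i ∈ slice 𝕜 (f i) (δ i)) ∧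
        z = ∑ i, (((1 / n : ℝ)) : 𝕜) • y i}
  have hC : IsCcs 𝕜 C := by
    refine ⟨n, f, δ, fun _ => 1 / n, hnpos, hδ, fun i => ⟨by positivity, ?_⟩, ?_, rfl⟩
    · rw [div_le_one hnr]
      exact_mod_cast hnpos
    · rw [Finset.sum_const, Finset.card_univ, Fintype.card_fin, nsmul_eq_mul]
      field_simp
  have hxC : x ∈ C := by
    refine ⟨fun _ => x, fun i => ⟨hx1.le, ?_⟩, ?_⟩
    · simp only [δ]
      change Msup i - (Msup i - RCLike.re (f i x) + ε / 4) < RCLike.re (f i x)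
      linarith
    · rw [Finset.sum_const, Finset.card_univ, Fintype.card_fin, ← Nat.cast_smul_eq_nsmul 𝕜,
        smul_smul]
      have : ((n : 𝕜) * (((1 / n : ℝ)) : 𝕜)) = 1 := by
        have hn0 : (n : 𝕜) ≠ 0 := by exact_mod_cast hnpos.ne'
        push_cast
        field_simp
      rw [this, one_smul]
  have hsup := hx2 C hC hxC
  have hlt : 2 - (ε / 2) / n < sSup ((fun y => ‖x - y‖) '' C) := by
    rw [hsup]
    have : 0 < (ε / 2) / n := by positivity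
    linarith
  have hCne : ((fun y => ‖x - y‖) '' C).Nonempty := ⟨‖x - x‖, x, hxC, rfl⟩
  obtain ⟨_, ⟨z, ⟨y, hy, rfl⟩, rfl⟩, hz⟩ := exists_lt_of_lt_csSup hCne hlt
  obtain ⟨g, hg1, hg2⟩ := exists_dual_vector'' 𝕜 (x - ∑ i, (((1 / n : ℝ)) : 𝕜) • y i)
  have hgle : ∀ w : X, ‖w‖ ≤ 1 → RCLike.re (g w) ≤ 1 := by
    intro w hw
    calc RCLike.re (g w) ≤ ‖g‖ * ‖w‖ := re_apply_le g w
      _ ≤ 1 * 1 := by gcongr
      _ = 1 := one_mul 1
  have hgge : ∀ w : X, ‖w‖ ≤ 1 → -1 ≤ RCLike.re (g w) := by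
    intro w hw
    have := hgle (-w) (by rwa [norm_neg])
    rw [map_neg, map_neg] at this
    linarith
  have hre : RCLike.re (g (x - ∑ i, (((1 / n : ℝ)) : 𝕜) • y i)) =
      RCLike.re (g x) - (1 / n) * ∑ i, RCLike.re (g (y i)) := by
    rw [map_sub, map_sub, map_sum, map_sum, Finset.mul_sum]
    congr 1
    refine Finset.sum_congr rfl fun i _ => ?_
    rw [map_smul, smul_eq_mul, RCLike.re_ofReal_mul]
  have hbig : 2 - (ε / 2) / n < RCLike.re (g x) - (1 / n) * ∑ i, RCLike.re (g (y i)) := by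
    rw [← hre, hg2, RCLike.ofReal_re]
    exact hz
  have hyn : ∀ i, ‖y i‖ ≤ 1 := fun i => (hy i).1
  -- each `y i` is almost antipodal
  have hsumge : -(n : ℝ) ≤ ∑ i, RCLike.re (g (y i)) := by
    calc -(n : ℝ) = ∑ _i : Fin n, (-1 : ℝ) := by
          rw [Finset.sum_const, Finset.card_univ, Fintype.card_fin, nsmul_eq_mul]
          ring
      _ ≤ ∑ i, RCLike.re (g (y i)) := Finset.sum_le_sum fun i _ => hgge _ (hyn i)
  have hn1 : (1 : ℝ) ≤ n := by exact_mod_cast hnpos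
  have hgx : 1 - ε / 2 ≤ RCLike.re (g x) := by
    have h1 : -1 ≤ (1 / (n : ℝ)) * ∑ i, RCLike.re (g (y i)) := by
      have := mul_le_mul_of_nonneg_left hsumge (show (0 : ℝ) ≤ 1 / n by positivity)
      have e : (1 / (n : ℝ)) * -(n : ℝ) = -1 := by field_simp
      linarith
    have h2 : (ε / 2) / n ≤ ε / 2 := div_le_self (by positivity) hn1
    linarith
  have hgy : ∀ j, RCLike.re (g (y j)) ≤ -(1 - ε / 2) := by
    intro j
    have h1 : RCLike.re (g (y j)) + (-(n : ℝ) + 1) ≤ ∑ i, RCLike.re (g (y i)) := by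
      rw [← Finset.add_sum_erase _ _ (Finset.mem_univ j)]
      gcongr
      calc (-(n : ℝ) + 1) = ∑ _i ∈ Finset.univ.erase j, (-1 : ℝ) := by
            rw [Finset.sum_const, Finset.card_erase_of_mem (Finset.mem_univ j),
              Finset.card_univ, Fintype.card_fin, nsmul_eq_mul, Nat.cast_sub hnpos]
            ring
        _ ≤ ∑ i ∈ Finset.univ.erase j, RCLike.re (g (y i)) :=
            Finset.sum_le_sum fun i _ => hgge _ (hyn i)
    have h2 := mul_le_mul_of_nonneg_left h1 (show (0 : ℝ) ≤ 1 / n by positivity)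
    have h3 := hgle x hx1.le
    have h4 : (1 / (n : ℝ)) * (RCLike.re (g (y j)) + (-(n : ℝ) + 1)) <
        -1 + (ε / 2) / n := by linarith
    have h5 : (1 / (n : ℝ)) * (RCLike.re (g (y j)) + (-(n : ℝ) + 1)) * n <
        (-1 + (ε / 2) / n) * n := mul_lt_mul_of_pos_right h4 hnr
    have e1 : (1 / (n : ℝ)) * (RCLike.re (g (y j)) + (-(n : ℝ) + 1)) * n =
        RCLike.re (g (y j)) + (-(n : ℝ) + 1) := by field_simp
    have e2 : (-1 + (ε / 2) / n) * (n : ℝ) = -(n : ℝ) + ε / 2 := by field_simp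
    rw [e1, e2] at h5
    linarith
  -- the convex set
  let K : Set X := {w | ‖w‖ ≤ 1 ∧ RCLike.re (g w) ≤ -(1 - ε / 2)}
  have hyK : ∀ i, y i ∈ K := fun i => ⟨hyn i, hgy i⟩
  have hKconv : Convex ℝ K := by
    have h1 : K = closedBall (0 : X) 1 ∩ {w | RCLike.re (g w) ≤ -(1 - ε / 2)} := by
      ext w
      simp only [K, mem_inter_iff, mem_closedBall_zero_iff]
      rfl
    rw [h1]
    apply (convex_closedBall (0 : X) 1).inter
    intro a ha b hb p q hp hq hpq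
    change RCLike.re (g (p • a + q • b)) ≤ -(1 - ε / 2)
    have ha' : RCLike.re (g a) ≤ -(1 - ε / 2) := ha
    have hb' : RCLike.re (g b) ≤ -(1 - ε / 2) := hb
    have e : RCLike.re (g (p • a + q • b)) = p * RCLike.re (g a) + q * RCLike.re (g b) := by
      have e1 : g (p • a) = ((p : ℝ) : 𝕜) * g a := by
        rw [RCLike.real_smul_eq_coe_smul (K := 𝕜) p a, map_smul, smul_eq_mul]
      have e2 : g (q • b) = ((q : ℝ) : 𝕜) * g b := by
        rw [RCLike.real_smul_eq_coe_smul (K := 𝕜) q b, map_smul, smul_eq_mul]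
      rw [map_add g, map_add, e1, e2, RCLike.re_ofReal_mul, RCLike.re_ofReal_mul]
    rw [e]
    calc p * RCLike.re (g a) + q * RCLike.re (g b) ≤
        p * -(1 - ε / 2) + q * -(1 - ε / 2) := by gcongr
      _ = (p + q) * -(1 - ε / 2) := by ring
      _ = -(1 - ε / 2) := by rw [hpq, one_mul]
  have hTK : Convex ℝ (T '' K) := by
    rintro _ ⟨a, ha, rfl⟩ _ ⟨b, hb, rfl⟩ p q hp hq hpq
    refine ⟨p • a + q • b, hKconv ha hb hp hq hpq, ?_⟩
    rw [RCLike.real_smul_eq_coe_smul (K := 𝕜) p a, RCLike.real_smul_eq_coe_smul (K := 𝕜) q b,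
      RCLike.real_smul_eq_coe_smul (K := 𝕜) p (T a), RCLike.real_smul_eq_coe_smul (K := 𝕜) q (T b),
      map_add, map_smul, map_smul]
  by_contra hcon
  push Not at hcon
  have hdisj : ∀ k ∈ T '' K, ε ≤ ‖k - T x‖ := by
    rintro _ ⟨w, hw, rfl⟩
    by_contra hlt'
    push Not at hlt'
    have h1 := hcon w hw.1 hlt'
    have h2 : RCLike.re (g (x - w)) ≤ ‖x - w‖ := by
      calc RCLike.re (g (x - w)) ≤ ‖g‖ * ‖x - w‖ := re_apply_le g _
        _ ≤ 1 * ‖x - w‖ := by gcongr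
        _ = ‖x - w‖ := one_mul _
    rw [map_sub, map_sub] at h2
    have h3 := hw.2
    linarith
  have hTKne : (T '' K).Nonempty := by
    have i0 : Fin n := ⟨0, hnpos⟩
    exact ⟨T (y i0), y i0, hyK i0, rfl⟩
  obtain ⟨h, hh1, hh2⟩ := separation (𝕜 := 𝕜) (T '' K) hTK hTKne (T x) ε hε hdisj
  have hhball : h ∈ closedBall (0 : StrongDual 𝕜 E) 1 := by
    rw [mem_closedBall_zero_iff, hh1]
  have hcov := ht3 hhball
  simp only [mem_iUnion] at hcov
  obtain ⟨a, hat, hha⟩ := hcov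
  rw [mem_ball, dist_eq_norm] at hha
  obtain ⟨i, hi⟩ := en.surjective ⟨a, ht2.mem_toFinset.mpr hat⟩
  have hfi : f i = a.comp T := by
    simp only [f, hi]
  have hyi := (hy i).2
  have hyi' : RCLike.re (a (T x)) - ε / 4 < RCLike.re (a (T (y i))) := by
    have e1 : RCLike.re (f i (y i)) = RCLike.re (a (T (y i))) := by rw [hfi]; rfl
    have e2 : RCLike.re (f i x) = RCLike.re (a (T x)) := by rw [hfi]; rfl
    rw [← e1, ← e2]
    change Msup i - δ i < RCLike.re (f i (y i)) at hyi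
    simp only [δ] at hyi
    linarith
  have hclose : ∀ w : X, ‖w‖ ≤ 1 → |RCLike.re (h (T w)) - RCLike.re (a (T w))| ≤ ε / 4 := by
    intro w hw
    have e1 : RCLike.re (h (T w)) - RCLike.re (a (T w)) = RCLike.re ((h - a) (T w)) := by
      rw [sub_apply, map_sub]
    rw [e1]
    calc |RCLike.re ((h - a) (T w))| ≤ ‖(h - a) (T w)‖ := RCLike.abs_re_le_norm _
      _ ≤ ‖h - a‖ * ‖T w‖ := (h - a).le_opNorm _
      _ ≤ θ * (‖T‖ * ‖w‖) := by
          gcongr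
          exact T.le_opNorm w
      _ ≤ θ * (‖T‖ * 1) := by gcongr
      _ = θ * ‖T‖ := by ring
      _ ≤ ε / 4 := hθT
  have c1 := hclose x hx1.le
  have c2 := hclose (y i) (hyn i)
  have c3 := hh2 (T (y i)) ⟨y i, hyK i, rfl⟩
  rw [abs_le] at c1 c2
  linarith [c1.1, c1.2, c2.1, c2.2]

/-- every ccs Delta-point is a super Delta-point -/
theorem super_of_ccs {x : X} (hx : IsCcsDelta 𝕜 x) : IsSuperDelta 𝕜 x := by
  classical
  refine ⟨hx.1, fun U hU hxU => ?_⟩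
  set W : Set X := {y : X | ‖y‖ ≤ 1 ∧ toWeakSpace 𝕜 X y ∈ U} with hW
  have hub : ∀ r ∈ (fun y => ‖x - y‖) '' W, r ≤ 2 := by
    rintro _ ⟨y, hy, rfl⟩
    calc ‖x - y‖ ≤ ‖x‖ + ‖y‖ := norm_sub_le _ _
      _ ≤ 1 + 1 := add_le_add hx.1.le hy.1
      _ = 2 := by norm_num
  have hxW : x ∈ W := ⟨hx.1.le, hxU⟩
  obtain ⟨V, hV, hVU⟩ := isOpen_induced_iff.mp hU
  have hVz : ∀ z : X, (fun f : StrongDual 𝕜 X => f z) ∈ V ↔ toWeakSpace 𝕜 X z ∈ U := by
    intro z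
    rw [← hVU]
    exact Iff.rfl
  have hxV : (fun f : StrongDual 𝕜 X => f x) ∈ V := (hVz x).mpr hxU
  rw [isOpen_pi_iff] at hV
  obtain ⟨I, u, hu, hIV⟩ := hV _ hxV
  have hball : ∀ f : I, ∃ r : ℝ, 0 < r ∧ ball ((f : StrongDual 𝕜 X) x) r ⊆ u f := by
    intro f
    exact Metric.isOpen_iff.mp (hu f f.2).1 _ (hu f f.2).2
  choose r hr hru using hball
  -- common radius
  obtain ⟨ρ, hρ, hρr⟩ : ∃ ρ : ℝ, 0 < ρ ∧ ∀ f : I, ρ ≤ r f := by
    rcases isEmpty_or_nonempty I with he | he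
    · exact ⟨1, one_pos, fun f => (he.false f).elim⟩
    · refine ⟨Finset.univ.inf' Finset.univ_nonempty r, ?_, fun f =>
        Finset.inf'_le _ (Finset.mem_univ f)⟩
      rw [Finset.lt_inf'_iff]
      exact fun f _ => hr f
  let T : X →L[𝕜] (I → 𝕜) := ContinuousLinearMap.pi fun f : I => (f : StrongDual 𝕜 X)
  have hnear : ∀ ε : ℝ, 0 < ε → ∃ y ∈ W, 2 - ε ≤ ‖x - y‖ := by
    intro ε hε
    obtain ⟨y, hy1, hy2, hy3⟩ := core hx T (min ε ρ) (lt_min hε hρ)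
    refine ⟨y, ⟨hy1, ?_⟩, le_trans (by linarith [min_le_left ε ρ]) hy3⟩
    have hyV : (fun f : StrongDual 𝕜 X => f y) ∈ V := by
      apply hIV
      intro f hf
      apply hru ⟨f, hf⟩
      rw [mem_ball, dist_eq_norm]
      have h1 : ‖(T y - T x) ⟨f, hf⟩‖ ≤ ‖T y - T x‖ := norm_le_pi_norm _ _
      have h2 : (T y - T x) ⟨f, hf⟩ = f y - f x := rfl
      rw [h2] at h1
      calc ‖f y - f x‖ ≤ ‖T y - T x‖ := h1
        _ < min ε ρ := hy2
        _ ≤ ρ := min_le_right _ _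
        _ ≤ r ⟨f, hf⟩ := hρr _
    exact (hVz y).mp hyV
  apply le_antisymm
  · exact csSup_le ⟨_, ⟨x, hxW, rfl⟩⟩ hub
  · apply le_of_forall_sub_le
    intro ε hε
    obtain ⟨y, hyW, hy⟩ := hnear ε hε
    exact le_trans hy (le_csSup ⟨2, hub⟩ ⟨y, hyW, rfl⟩)

/-- no ccs Delta-points under property (A) -/
theorem no_ccs (hA : PropertyA 𝕜 X) (x : X) : ¬ IsCcsDelta 𝕜 x := by
  intro hx
  obtain ⟨𝒜, hfin, ⟨c, hc, hcT⟩, happ⟩ := hA
  set ε : ℝ := (2 - c) / 4 with hε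
  have hεpos : 0 < ε := by rw [hε]; linarith
  obtain ⟨T, hT, hTx⟩ := happ ε hεpos x
  have := hfin T hT
  let T' : X →L[𝕜] (LinearMap.range (T : X →ₗ[𝕜] X)) :=
    T.codRestrict _ (fun z => LinearMap.mem_range_self (T : X →ₗ[𝕜] X) z)
  obtain ⟨y, hy1, hy2, hy3⟩ := core hx T' ε hεpos
  have hy2' : ‖T y - T x‖ < ε := hy2
  have h1 : ‖y - T y‖ ≤ c := by
    calc ‖y - T y‖ = ‖(ContinuousLinearMap.id 𝕜 X - T) y‖ := by simp
      _ ≤ ‖ContinuousLinearMap.id 𝕜 X - T‖ * ‖y‖ := ContinuousLinearMap.le_opNorm _ _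
      _ ≤ ‖ContinuousLinearMap.id 𝕜 X - T‖ * 1 := by gcongr
      _ ≤ c := by rw [mul_one]; exact hcT T hT
  have h2 : x - y = ((x - T x) - (T y - T x)) - (y - T y) := by abel
  have h3 : ‖x - y‖ ≤ ‖x - T x‖ + ‖T y - T x‖ + ‖y - T y‖ := by
    rw [h2]
    calc _ ≤ ‖(x - T x) - (T y - T x)‖ + ‖y - T y‖ := norm_sub_le _ _
      _ ≤ _ := by gcongr; exact norm_sub_le _ _
  rw [hε] at hTx hy2' hy3
  linarith

end

universe u v

/-- In every real or complex normed space each ccs Delta-point is a super Delta-point; and no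
Banach space with property (A) contains a ccs Delta-point. -/
theorem result :
    (∀ (𝕜 : Type u) [RCLike 𝕜] (X : Type v) [NormedAddCommGroup X] [NormedSpace 𝕜 X],
      PropertyA 𝕜 X → ¬ ∃ x : X, IsCcsDelta 𝕜 x) ∧
    (∀ (𝕜 : Type u) [RCLike 𝕜] (X : Type v) [NormedAddCommGroup X] [NormedSpace 𝕜 X] (x : X),
      IsCcsDelta 𝕜 x → IsSuperDelta 𝕜 x) := by
  refine ⟨fun 𝕜 _ X _ _ hA => ?_, fun 𝕜 _ X _ _ x hx => super_of_ccs hx⟩
  rintro ⟨x, hx⟩
  exact no_ccs hA x hx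

end Pool.Agent.Results.MP_d10958_an.CcsDeltaIsSuperDelta
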